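import Pool.Agent.Work.MP_d2308b_lc.Card

/-!
# No maximal wide Aronszajn tree in forcing extensions with a small chain condition

See `Pool/Agent/Work/MP_d2308b_lc/Defs.lean` for the definitions (Boolean-valued trees).
-/

namespace Pool.Agent.Results.MP_d2308b_lc.ChainCondition

open Cardinal Pool.MP_d2308b

universe u

/-- Let `lam` be a regular cardinal with `lam ^< lam = lam`, for instance `lam = κ⁺` where `κ` is a
singular cardinal with `2 ^ κ = κ⁺`.  Let `B` be a complete Boolean algebra (of any size) which has
the `ρ`-chain condition for some regular `ρ < lam`, or which has the `lam`-chain condition and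
forces the tree property at `lam`.  Then in `V^B` there is no maximal wide `lam`-Aronszajn tree. -/
theorem result (lam : Cardinal.{u}) (hl : lam.IsRegular) (hpow : lam ^< lam = lam)
    (B : Type u) [CompleteBooleanAlgebra B]
    (hB : (∃ ρ : Cardinal.{u}, ρ.IsRegular ∧ ρ < lam ∧ CC B ρ) ∨
      (CC B lam ∧ TreeProp lam.ord.ToType B)) :
    NoMaximal lam B :=
  main hl hpow B hB

end Pool.Agent.Results.MP_d2308b_lc.ChainCondition
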