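import Pool.Agent.Work.MP_d2308b_lc.SP.Final

/-!
# No maximal wide Aronszajn tree in the Silver-Prikry models

The definitions are in `Pool/Agent/Work/MP_d2308b_lc/SP/Base.lean` (the completion of
`Add(κ, J) * Prikry(U)`) and in `Pool/Agent/Work/MP_d2308b_lc/Defs.lean` (Boolean-valued wide
Aronszajn trees).
-/

namespace Pool.Agent.Results.MP_d2308b_lc.SilverPrikry

open Cardinal Pool.MP_d2308b Pool.MP_d2308b.SP

/-- Let `κ` be a regular uncountable cardinal with `κ ^< κ = κ` and `2 ^ κ = κ⁺`, let `A` be the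
completion of the Cohen forcing `Add(κ, J)` (`J` is any set), let `U` be an `A`-name for a normal
ultrafilter on `κ`, and let `B` be the completion of `A * Prikry(U)`.  Then in `V^B`, where `κ` is a
singular strong limit cardinal of cofinality `ω` and `2 ^ κ ≥ #J`, there is no maximal wide
`κ⁺`-Aronszajn tree. -/
theorem result (κ : Cardinal.{0}) (hreg : κ.IsRegular) (hunc : ℵ₀ < κ) (hpow : κ ^< κ = κ)
    (hcont : 2 ^ κ = Order.succ κ) (J A B : Type) [CompleteBooleanAlgebra A]
    [CompleteBooleanAlgebra B] (g : J → A) (hA : Cohen κ g) (U : (Mo κ → A) → A) (hU : Nor U)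
    (ι : A → B) (h : Finset (Mo κ) → B) (hB : Prik U ι h) :
    NoMaximal (Order.succ κ) B :=
  silverPrikry κ J A B g U ι h ⟨⟨hreg, hunc, hpow, hcont⟩, hA, hU, hB⟩

end Pool.Agent.Results.MP_d2308b_lc.SilverPrikry
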