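import Pool.Agent.Work.MP_d2308b_lc.H94.Local

set_option autoImplicit false

namespace Pool.Agent.Results.MP_d2308b_lc.StationaryPaths

universe u
open Cardinal Set

/-- `T` is a tree: it has a least element, and the set of strict predecessors of every element
is a well-ordered chain. -/
def IsTree (T : Type u) [PartialOrder T] : Prop :=
  (∃ r : T, ∀ t, r ≤ t) ∧ ∀ t : T, IsChain (· ≤ ·) (Iio t) ∧ (Iio t).WellFoundedOn (· < ·)

/-- The height of `t` is `α`: the set of strict predecessors of `t` has order type `α`. -/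
def HasHeight {T : Type u} [PartialOrder T] (t : T) (α : Ordinal.{u}) : Prop :=
  Nonempty (Iio t ≃o Iio α)

/-- `T` is a wide `lam`-Aronszajn tree: a tree of size `lam` and height `lam` without a branch of
order type `lam`. -/
def IsWideAronszajn (lam : Cardinal.{u}) (T : Type u) [PartialOrder T] : Prop :=
  IsTree T ∧ #T = lam ∧
  (∀ α < lam.ord, ∃ t : T, HasHeight t α) ∧ (¬ ∃ t : T, HasHeight t lam.ord) ∧
  ¬ ∃ C : Set T, IsChain (· ≤ ·) C ∧ Nonempty (C ≃o Iio lam.ord)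

/-- `T` is a maximal (universal) wide `lam`-Aronszajn tree. -/
def IsMaximal (lam : Cardinal.{u}) (T : Type u) [PartialOrder T] : Prop :=
  IsWideAronszajn lam T ∧ ∀ (S : Type u) [PartialOrder S], IsWideAronszajn lam S →
    ∃ f : S → T, Function.Injective f ∧ StrictMono f

/-- A path of length `δ` in `T`: a downward closed chain of order type `δ`. -/
def IsPath {T : Type u} [PartialOrder T] (C : Set T) (δ : Ordinal.{u}) : Prop :=
  IsChain (· ≤ ·) C ∧ IsLowerSet C ∧ Nonempty (C ≃o Iio δ)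

namespace Aux

theorem isTree_iff {T : Type u} [PartialOrder T] :
    IsTree T ↔ Pool.Agent.Work.MP_d2308b_lc.H94.IsTree T := by
  constructor
  · rintro ⟨h1, h2⟩
    refine ⟨h1, fun t a b ha hb => ?_, fun t => (h2 t).2⟩
    by_cases hab : a = b
    · exact Or.inl hab.le
    · exact (h2 t).1 ha hb hab
  · rintro ⟨h1, h2, h3⟩
    exact ⟨h1, fun t => ⟨fun a ha b hb _ => h2 t a b ha hb, h3 t⟩⟩

theorem wide_iff {lam : Cardinal.{u}} {T : Type u} [PartialOrder T] :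
    IsWideAronszajn lam T ↔ Pool.Agent.Work.MP_d2308b_lc.H94.IsWideAronszajn lam T := by
  constructor
  · rintro ⟨h1, h2, h3, h4, h5⟩
    exact ⟨isTree_iff.1 h1, h2, h3, h4, h5⟩
  · rintro ⟨h1, h2, h3, h4, h5⟩
    exact ⟨isTree_iff.2 h1, h2, h3, h4, h5⟩

theorem few_false {κ : Cardinal.{u}} (hκ : ℵ₀ ≤ κ) {T : Type u} [PartialOrder T]
    (hT : IsMaximal (Order.succ κ) T) {t : Set (Iio (Order.succ κ).ord)} (ht : IsClub t)
    (h : ∀ δ ∈ t, #{C : Set T | IsPath C δ.1} ≤ Order.succ κ) : False := by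
  have hlim : Order.IsSuccLimit (Order.succ κ).ord :=
    Cardinal.isSuccLimit_ord (hκ.trans (Order.le_succ κ))
  suffices hS : ∃ (S : Type u) (_ : PartialOrder S),
      Pool.Agent.Work.MP_d2308b_lc.H94.IsWideAronszajn (Order.succ κ) S ∧
      ¬ ∃ f : S → T, StrictMono f by
    obtain ⟨S, _, h1, h2⟩ := hS
    obtain ⟨f, _, hf⟩ := hT.2 S (wide_iff.2 h1)
    exact h2 ⟨f, hf⟩
  refine Pool.Agent.Work.MP_d2308b_lc.H94.main_B hκ T (wide_iff.1 hT.1)
    (Subtype.val '' t) ?_ ?_ ?_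
  · intro α hα
    obtain ⟨β, hβ, hαβ⟩ := ht.isCofinal ⟨Order.succ α, hlim.succ_lt hα⟩
    exact ⟨β.1, ⟨β, hβ, rfl⟩, (Order.lt_succ α).trans_le hαβ, β.2⟩
  · intro δ hδ hδ0 hlim'
    have h0 : (0 : Ordinal.{u}) < δ := pos_iff_ne_zero.2 hδ0
    obtain ⟨β0, ⟨b0, hb0, rfl⟩, hβ0, hβ0'⟩ := hlim' 0 h0
    refine ⟨⟨δ, hδ⟩, ?_, rfl⟩
    refine ht.isLUB_mem (t := {x ∈ t | x.1 < δ}) (fun x hx => hx.1) ⟨b0, hb0, hβ0'⟩ ⟨?_, ?_⟩
    · intro x hx
      exact le_of_lt hx.2
    · intro x hx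
      by_contra hcon
      have hlt : x.1 < δ := not_le.1 hcon
      obtain ⟨β, ⟨b, hb, rfl⟩, hβ, hβ'⟩ := hlim' x.1 hlt
      exact absurd (hx ⟨hb, hβ'⟩) (not_le.2 hβ)
  · rintro _ ⟨δ, hδ, rfl⟩ _
    exact h δ hδ

end Aux

/-- Let `κ` be an infinite cardinal and `T` a maximal wide `κ⁺`-Aronszajn tree. Then for
stationarily many `δ < κ⁺` (of cofinality `cf κ` if `κ` is a strong limit cardinal) some set of at
most `κ` elements of `T` contains more than `κ⁺` paths of length `δ` without an upper bound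
in `T`. -/
theorem result (κ : Cardinal.{u}) (hκ : ℵ₀ ≤ κ) (T : Type u) [PartialOrder T]
    (hT : IsMaximal (Order.succ κ) T) :
    IsStationary {δ : Iio (Order.succ κ).ord |
      (κ.IsStrongLimit → δ.1.cof = κ.ord.cof) ∧
      ∃ A : Set T, #A ≤ κ ∧
        Order.succ κ < #{C : Set T | IsPath C δ.1 ∧ C ⊆ A ∧ ¬ ∃ t, ∀ s ∈ C, s ≤ t}} := by
  intro t ht
  by_contra hcon
  refine Aux.few_false hκ hT ht fun δ hδ => ?_
  by_contra h
  have hmany : Order.succ κ < #{C : Set T | IsPath C δ.1} := not_le.1 h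
  refine hcon ⟨δ, ⟨fun hsl => ?_, ?_⟩, hδ⟩
  · by_contra hcof
    exact h (Pool.Agent.Work.MP_d2308b_lc.H94.few_paths hκ
      (fun x hx => hsl.isStrongPrelimit hx) T hT.1.2.1 δ.2 hcof)
  · exact Pool.Agent.Work.MP_d2308b_lc.H94.local_of_many hκ T (Aux.isTree_iff.1 hT.1.1) hT.1.2.1
      δ.2 hmany

end Pool.Agent.Results.MP_d2308b_lc.StationaryPaths
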